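import Mathlib
import Pool.Agent.WCC.Link
import Pool.Agent.WCC.FinalB

/-!
Wirsching's covering conjecture fails, for every constant and for arbitrarily large `j`.
-/

set_option autoImplicit false

namespace Pool.Agent.Results.MP_77f1eb_nt.CoveringFails

/-- Wirsching's set `R_{j,k}` of all `2^(α_0) + 2^(α_1) 3 + ... + 2^(α_j) 3^j` with
`j + k ≥ α_0 > α_1 > ... > α_j ≥ 0` -/
def R (j k : ℕ) : Set ℕ :=
  {n : ℕ | ∃ α : Fin (j + 1) → ℕ, StrictAnti α ∧ (∀ i, α i ≤ j + k) ∧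
    n = ∑ i, 2 ^ (α i) * 3 ^ (i : ℕ)}

theorem ncard_R (j : ℕ) (hj : 1 ≤ j) : (R (j - 1) j).ncard = (2 * j).choose j := by
  obtain ⟨i, rfl⟩ : ∃ i, j = i + 1 := ⟨j - 1, by omega⟩
  rw [← Pool.Agent.WCC.frozen_ncard (i + 1) hj]
  congr 1
  unfold R
  have h : i + 1 - 1 + (i + 1) = 2 * (i + 1) - 1 := by omega
  simp only [h]
  rfl

theorem mem_R (j : ℕ) (hj : 1 ≤ j) (x : List Bool) (h1 : x.length = 2 * j)
    (h2 : Pool.Agent.WCC.ones x = j) : Pool.Agent.WCC.val x ∈ R (j - 1) j := by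
  obtain ⟨i, rfl⟩ : ∃ i, j = i + 1 := ⟨j - 1, by omega⟩
  have h3 : Pool.Agent.WCC.val x ∈ {n : ℕ | ∃ α : Fin (i + 1) → ℕ, StrictAnti α ∧
      (∀ k, α k ≤ 2 * (i + 1) - 1) ∧ n = ∑ k, 2 ^ (α k) * 3 ^ (k : ℕ)} := by
    rw [Pool.Agent.WCC.frozen_set_eq (i + 1) hj]
    exact ⟨x, h1, h2, rfl⟩
  obtain ⟨α, h4, h5, h6⟩ := h3
  exact ⟨α, h4, fun k => by have := h5 k; omega, h6⟩

theorem result (K : ℝ) (J : ℕ) :
    ∃ j l : ℕ, J ≤ j ∧ 1 ≤ j ∧ 1 ≤ l ∧ 2 * K * 3 ^ (l - 1) ≤ ((R (j - 1) j).ncard : ℝ) ∧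
      (R (j - 1) j).ncard = (2 * j).choose j ∧
      ∃ c : ZMod (3 ^ l), IsUnit c ∧ ∀ n ∈ R (j - 1) j, (n : ZMod (3 ^ l)) ≠ c := by
  by_contra hcon
  push Not at hcon
  obtain ⟨K₁, hK₁⟩ := exists_nat_ge K
  set M : ℕ := K₁ + (2 * J).choose J + 1 with hM
  have hmono : ∀ a b : ℕ, a ≤ b → (2 * a).choose a ≤ (2 * b).choose b := by
    intro a b hab
    have h1 : Monotone Nat.centralBinom := by
      apply monotone_nat_of_le_succ
      intro n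
      have h2 := Nat.succ_mul_centralBinom_succ n
      have h3 : (n + 1) * Nat.centralBinom n ≤ (n + 1) * Nat.centralBinom (n + 1) := by
        rw [h2]
        apply Nat.mul_le_mul_right
        omega
      exact Nat.le_of_mul_le_mul_left h3 (by omega)
    exact h1 hab
  refine Pool.Agent.WCC.final_contra M (by omega) ?_
  intro j l hj hl hX r hr h3
  have hpow : 1 ≤ 3 ^ (l - 1) := Nat.one_le_pow _ _ (by norm_num)
  have hJj : J ≤ j := by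
    by_contra hlt
    have h4 := hmono j J (by omega)
    have h5 : 2 * M * 1 ≤ 2 * M * 3 ^ (l - 1) := Nat.mul_le_mul_left _ hpow
    omega
  have hKM : K ≤ (M : ℝ) := by
    have : (K₁ : ℝ) ≤ (M : ℝ) := by exact_mod_cast (by omega : K₁ ≤ M)
    linarith
  have hcount : 2 * K * 3 ^ (l - 1) ≤ ((R (j - 1) j).ncard : ℝ) := by
    rw [ncard_R j hj]
    have h1 : ((2 * M * 3 ^ (l - 1) : ℕ) : ℝ) ≤ (((2 * j).choose j : ℕ) : ℝ) := by
      exact_mod_cast hX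
    push_cast at h1
    have h2 : 2 * K * (3 : ℝ) ^ (l - 1) ≤ 2 * (M : ℝ) * 3 ^ (l - 1) :=
      mul_le_mul_of_nonneg_right (by linarith) (by positivity)
    linarith
  have hunit : IsUnit ((r : ℕ) : ZMod (3 ^ l)) := by
    rw [ZMod.isUnit_iff_coprime]
    apply Nat.Coprime.pow_right
    rw [Nat.coprime_comm, Nat.Prime.coprime_iff_not_dvd Nat.prime_three]
    exact h3
  obtain ⟨n, hn, hnr⟩ := hcon j l hJj hj hl hcount (ncard_R j hj) _ hunit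
  have hmod : n % 3 ^ l = r := by
    rw [ZMod.natCast_eq_natCast_iff'] at hnr
    rw [hnr, Nat.mod_eq_of_lt hr]
  obtain ⟨i, rfl⟩ : ∃ i, j = i + 1 := ⟨j - 1, by omega⟩
  have hmem : n ∈ {n : ℕ | ∃ α : Fin (i + 1) → ℕ, StrictAnti α ∧
      (∀ k, α k ≤ 2 * (i + 1) - 1) ∧ n = ∑ k, 2 ^ (α k) * 3 ^ (k : ℕ)} := by
    obtain ⟨α, h4, h5, h6⟩ := hn
    exact ⟨α, h4, fun k => by have := h5 k; omega, h6⟩
  rw [Pool.Agent.WCC.frozen_set_eq (i + 1) hj] at hmem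
  obtain ⟨x, hx1, hx2, hx3⟩ := hmem
  exact ⟨x, hx1, hx2, by rw [← hx3]; exact hmod⟩

end Pool.Agent.Results.MP_77f1eb_nt.CoveringFails
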